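import Pool.Agent.Strip051.Box.C2
import Pool.Agent.Strip051.Box.S30
import Pool.Agent.Strip051.LB.Fc.F2

/-! # LINE tight chart ChA00V1_pp_123 -/

namespace Pool.Agent.Strip051.LB.ChA00V1_pp_123

open Pool.Agent.Strip051.Box Pool.Agent.Strip051.Box2

open Pool.Agent.Strip051.LB.Fc Pool.Agent.Strip051.LB.Fc.F2 Pool.Agent.Strip051.LB.Fn Pool.Agent.Strip051.LB.Fn.F2

/-- coordinates of a point of the box -/
def In (b : Bx) (E : Pt) (x1 x2 : ℝ) : Prop :=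
  (S : ℝ) * x1 = ((b.p1 : ℝ) - b.n1) + b.q1 * E.e1 ∧ (S : ℝ) * x2 = ((b.p2 : ℝ) - b.n2) + b.q2 * E.e2

variable {b : Bx} {E : Pt} {x1 x2 : ℝ}

def t0 (b : Bx) : TM := X1 b
noncomputable def v0 (x1 _x2 : ℝ) : ℝ := x1
theorem h0 (h : In b E x1 x2) : Enc S E (t0 b) (v0 x1 x2) := enc_X1 h.1

def t1 (b : Bx) : TM := X2 b
noncomputable def v1 (_x1 x2 : ℝ) : ℝ := x2
theorem h1 (h : In b E x1 x2) : Enc S E (t1 b) (v1 x1 x2) := enc_X2 h.2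

def t2 (_b : Bx) : TM := tconst 1859775393 0 1
noncomputable def v2 (_x1 _x2 : ℝ) : ℝ := Real.sqrt ((3 : ℕ) : ℝ)
theorem h2 (_h : In b E x1 x2) : Enc S E (t2 b) (v2 x1 x2) := enc_sqrtn E (by decide) (by decide)

def t3 (b : Bx) : TM := tscale 1 2 (t2 b)
noncomputable def v3 (x1 x2 : ℝ) : ℝ := ((1 : ℕ) : ℝ) / ((2 : ℕ) : ℝ) * v2 x1 x2
theorem h3 (h : In b E x1 x2) : Enc S E (t3 b) (v3 x1 x2) := enc_scale 1 (by norm_num) (h2 h)

def t4 (b : Bx) : TM := tsq S (t0 b)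
noncomputable def v4 (x1 x2 : ℝ) : ℝ := (v0 x1 x2) ^ 2
theorem h4 (h : In b E x1 x2) : Enc S E (t4 b) (v4 x1 x2) := enc_sq hS (h0 h)

def t5 (_b : Bx) : TM := tconst (Nat.mul 1 S) 0 0
noncomputable def v5 (_x1 _x2 : ℝ) : ℝ := ((1 : ℕ) : ℝ)
theorem h5 (_h : In b E x1 x2) : Enc S E (t5 b) (v5 x1 x2) := enc_nc E 1

def t6 (b : Bx) : TM := tsub (t5 b) (t4 b)
noncomputable def v6 (x1 x2 : ℝ) : ℝ := v5 x1 x2 - v4 x1 x2
theorem h6 (h : In b E x1 x2) : Enc S E (t6 b) (v6 x1 x2) := enc_sub (h5 h) (h4 h)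

def t7 (b : Bx) : TM := tsqrt S (t6 b)
noncomputable def v7 (x1 x2 : ℝ) : ℝ := Real.sqrt (v6 x1 x2)
theorem h7 (h : In b E x1 x2) : Enc S E (t7 b) (v7 x1 x2) := enc_sqrt hS (h6 h)

def t9 (_b : Bx) : TM := tconst (Nat.div (Nat.mul 1 S) 2) 0 1
noncomputable def v9 (_x1 _x2 : ℝ) : ℝ := ((1 : ℕ) : ℝ) / ((2 : ℕ) : ℝ)
theorem h9 (_h : In b E x1 x2) : Enc S E (t9 b) (v9 x1 x2) := enc_rat E 1 (by norm_num)

def t10 (b : Bx) : TM := tscale 1 2 (t7 b)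
noncomputable def v10 (x1 x2 : ℝ) : ℝ := ((1 : ℕ) : ℝ) / ((2 : ℕ) : ℝ) * v7 x1 x2
theorem h10 (h : In b E x1 x2) : Enc S E (t10 b) (v10 x1 x2) := enc_scale 1 (by norm_num) (h7 h)

def t11 (b : Bx) : TM := tmul S (t0 b) (t3 b)
noncomputable def v11 (x1 x2 : ℝ) : ℝ := v0 x1 x2 * v3 x1 x2
theorem h11 (h : In b E x1 x2) : Enc S E (t11 b) (v11 x1 x2) := enc_mul hS (h0 h) (h3 h)

def t12 (b : Bx) : TM := tsub (t10 b) (t11 b)
noncomputable def v12 (x1 x2 : ℝ) : ℝ := v10 x1 x2 - v11 x1 x2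
theorem h12 (h : In b E x1 x2) : Enc S E (t12 b) (v12 x1 x2) := enc_sub (h10 h) (h11 h)

def t13 (b : Bx) : TM := tscale 1 2 (t0 b)
noncomputable def v13 (x1 x2 : ℝ) : ℝ := ((1 : ℕ) : ℝ) / ((2 : ℕ) : ℝ) * v0 x1 x2
theorem h13 (h : In b E x1 x2) : Enc S E (t13 b) (v13 x1 x2) := enc_scale 1 (by norm_num) (h0 h)

def t14 (b : Bx) : TM := tmul S (t7 b) (t3 b)
noncomputable def v14 (x1 x2 : ℝ) : ℝ := v7 x1 x2 * v3 x1 x2
theorem h14 (h : In b E x1 x2) : Enc S E (t14 b) (v14 x1 x2) := enc_mul hS (h7 h) (h3 h)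

def t15 (b : Bx) : TM := tadd (t13 b) (t14 b)
noncomputable def v15 (x1 x2 : ℝ) : ℝ := v13 x1 x2 + v14 x1 x2
theorem h15 (h : In b E x1 x2) : Enc S E (t15 b) (v15 x1 x2) := enc_add (h13 h) (h14 h)

def t20 (b : Bx) : TM := tsub (t1 b) (t12 b)
noncomputable def v20 (x1 x2 : ℝ) : ℝ := v1 x1 x2 - v12 x1 x2
theorem h20 (h : In b E x1 x2) : Enc S E (t20 b) (v20 x1 x2) := enc_sub (h1 h) (h12 h)

def t21 (b : Bx) : TM := tsq S (t1 b)
noncomputable def v21 (x1 x2 : ℝ) : ℝ := (v1 x1 x2) ^ 2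
theorem h21 (h : In b E x1 x2) : Enc S E (t21 b) (v21 x1 x2) := enc_sq hS (h1 h)

def t22 (b : Bx) : TM := tsub (t5 b) (t21 b)
noncomputable def v22 (x1 x2 : ℝ) : ℝ := v5 x1 x2 - v21 x1 x2
theorem h22 (h : In b E x1 x2) : Enc S E (t22 b) (v22 x1 x2) := enc_sub (h5 h) (h21 h)

def t23 (b : Bx) : TM := tsqrt S (t22 b)
noncomputable def v23 (x1 x2 : ℝ) : ℝ := Real.sqrt (v22 x1 x2)
theorem h23 (h : In b E x1 x2) : Enc S E (t23 b) (v23 x1 x2) := enc_sqrt hS (h22 h)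

def t24 (b : Bx) : TM := tadd (t7 b) (t1 b)
noncomputable def v24 (x1 x2 : ℝ) : ℝ := v7 x1 x2 + v1 x1 x2
theorem h24 (h : In b E x1 x2) : Enc S E (t24 b) (v24 x1 x2) := enc_add (h7 h) (h1 h)

def t25 (b : Bx) : TM := tadd (t0 b) (t23 b)
noncomputable def v25 (x1 x2 : ℝ) : ℝ := v0 x1 x2 + v23 x1 x2
theorem h25 (h : In b E x1 x2) : Enc S E (t25 b) (v25 x1 x2) := enc_add (h0 h) (h23 h)

def t26 (b : Bx) : TM := tsub (t12 b) (t1 b)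
noncomputable def v26 (x1 x2 : ℝ) : ℝ := v12 x1 x2 - v1 x1 x2
theorem h26 (h : In b E x1 x2) : Enc S E (t26 b) (v26 x1 x2) := enc_sub (h12 h) (h1 h)

def t27 (b : Bx) : TM := tnat 2 (t7 b)
noncomputable def v27 (x1 x2 : ℝ) : ℝ := ((2 : ℕ) : ℝ) * v7 x1 x2
theorem h27 (h : In b E x1 x2) : Enc S E (t27 b) (v27 x1 x2) := enc_nat 2 (h7 h)

def t28 (b : Bx) : TM := tadd (t5 b) (t27 b)
noncomputable def v28 (x1 x2 : ℝ) : ℝ := v5 x1 x2 + v27 x1 x2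
theorem h28 (h : In b E x1 x2) : Enc S E (t28 b) (v28 x1 x2) := enc_add (h5 h) (h27 h)

def t29 (b : Bx) : TM := tmul S (t2 b) (t0 b)
noncomputable def v29 (x1 x2 : ℝ) : ℝ := v2 x1 x2 * v0 x1 x2
theorem h29 (h : In b E x1 x2) : Enc S E (t29 b) (v29 x1 x2) := enc_mul hS (h2 h) (h0 h)

def t30 (b : Bx) : TM := tsub (t29 b) (t7 b)
noncomputable def v30 (x1 x2 : ℝ) : ℝ := v29 x1 x2 - v7 x1 x2
theorem h30 (h : In b E x1 x2) : Enc S E (t30 b) (v30 x1 x2) := enc_sub (h29 h) (h7 h)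

def t31 (b : Bx) : TM := tmul S (t28 b) (t30 b)
noncomputable def v31 (x1 x2 : ℝ) : ℝ := v28 x1 x2 * v30 x1 x2
theorem h31 (h : In b E x1 x2) : Enc S E (t31 b) (v31 x1 x2) := enc_mul hS (h28 h) (h30 h)

def t32 (b : Bx) : TM := tadd (t5 b) (t29 b)
noncomputable def v32 (x1 x2 : ℝ) : ℝ := v5 x1 x2 + v29 x1 x2
theorem h32 (h : In b E x1 x2) : Enc S E (t32 b) (v32 x1 x2) := enc_add (h5 h) (h29 h)

def t33 (b : Bx) : TM := tsub (t32 b) (t7 b)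
noncomputable def v33 (x1 x2 : ℝ) : ℝ := v32 x1 x2 - v7 x1 x2
theorem h33 (h : In b E x1 x2) : Enc S E (t33 b) (v33 x1 x2) := enc_sub (h32 h) (h7 h)

def t34 (b : Bx) : TM := tnat 2 (t33 b)
noncomputable def v34 (x1 x2 : ℝ) : ℝ := ((2 : ℕ) : ℝ) * v33 x1 x2
theorem h34 (h : In b E x1 x2) : Enc S E (t34 b) (v34 x1 x2) := enc_nat 2 (h33 h)

def t35 (b : Bx) : TM := tinv S (t34 b)
noncomputable def v35 (x1 x2 : ℝ) : ℝ := (v34 x1 x2)⁻¹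
theorem h35 (h : In b E x1 x2) : Enc S E (t35 b) (v35 x1 x2) := enc_inv hS (h34 h)

def t36 (b : Bx) : TM := tmul S (t31 b) (t35 b)
noncomputable def v36 (x1 x2 : ℝ) : ℝ := v31 x1 x2 * v35 x1 x2
theorem h36 (h : In b E x1 x2) : Enc S E (t36 b) (v36 x1 x2) := enc_mul hS (h31 h) (h35 h)

def t37 (b : Bx) : TM := tsq S (t24 b)
noncomputable def v37 (x1 x2 : ℝ) : ℝ := (v24 x1 x2) ^ 2
theorem h37 (h : In b E x1 x2) : Enc S E (t37 b) (v37 x1 x2) := enc_sq hS (h24 h)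

def t38 (_b : Bx) : TM := tconst (Nat.mul 3 S) 0 0
noncomputable def v38 (_x1 _x2 : ℝ) : ℝ := ((3 : ℕ) : ℝ)
theorem h38 (_h : In b E x1 x2) : Enc S E (t38 b) (v38 x1 x2) := enc_nc E 3

def t39 (b : Bx) : TM := tsub (t38 b) (t37 b)
noncomputable def v39 (x1 x2 : ℝ) : ℝ := v38 x1 x2 - v37 x1 x2
theorem h39 (h : In b E x1 x2) : Enc S E (t39 b) (v39 x1 x2) := enc_sub (h38 h) (h37 h)

def t40 (b : Bx) : TM := tsq S (t25 b)
noncomputable def v40 (x1 x2 : ℝ) : ℝ := (v25 x1 x2) ^ 2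
theorem h40 (h : In b E x1 x2) : Enc S E (t40 b) (v40 x1 x2) := enc_sq hS (h25 h)

def t44 (b : Bx) : TM := tadd (t7 b) (t12 b)
noncomputable def v44 (x1 x2 : ℝ) : ℝ := v7 x1 x2 + v12 x1 x2
theorem h44 (h : In b E x1 x2) : Enc S E (t44 b) (v44 x1 x2) := enc_add (h7 h) (h12 h)

def t46 (b : Bx) : TM := tadd (t24 b) (t44 b)
noncomputable def v46 (x1 x2 : ℝ) : ℝ := v24 x1 x2 + v44 x1 x2
theorem h46 (h : In b E x1 x2) : Enc S E (t46 b) (v46 x1 x2) := enc_add (h24 h) (h44 h)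

def t50 (b : Bx) : TM := tadd (t1 b) (t12 b)
noncomputable def v50 (x1 x2 : ℝ) : ℝ := v1 x1 x2 + v12 x1 x2
theorem h50 (h : In b E x1 x2) : Enc S E (t50 b) (v50 x1 x2) := enc_add (h1 h) (h12 h)

def t53 (b : Bx) : TM := tadd (t23 b) (t15 b)
noncomputable def v53 (x1 x2 : ℝ) : ℝ := v23 x1 x2 + v15 x1 x2
theorem h53 (h : In b E x1 x2) : Enc S E (t53 b) (v53 x1 x2) := enc_add (h23 h) (h15 h)

def t54 (b : Bx) : TM := tinv S (t53 b)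
noncomputable def v54 (x1 x2 : ℝ) : ℝ := (v53 x1 x2)⁻¹
theorem h54 (h : In b E x1 x2) : Enc S E (t54 b) (v54 x1 x2) := enc_inv hS (h53 h)

def t55 (b : Bx) : TM := tmul S (t50 b) (t54 b)
noncomputable def v55 (x1 x2 : ℝ) : ℝ := v50 x1 x2 * v54 x1 x2
theorem h55 (h : In b E x1 x2) : Enc S E (t55 b) (v55 x1 x2) := enc_mul hS (h50 h) (h54 h)

def t56 (b : Bx) : TM := tadd (t0 b) (t15 b)
noncomputable def v56 (x1 x2 : ℝ) : ℝ := v0 x1 x2 + v15 x1 x2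
theorem h56 (h : In b E x1 x2) : Enc S E (t56 b) (v56 x1 x2) := enc_add (h0 h) (h15 h)

def t58 (b : Bx) : TM := tadd (t25 b) (t56 b)
noncomputable def v58 (x1 x2 : ℝ) : ℝ := v25 x1 x2 + v56 x1 x2
theorem h58 (h : In b E x1 x2) : Enc S E (t58 b) (v58 x1 x2) := enc_add (h25 h) (h56 h)

def t59 (b : Bx) : TM := tmul S (t55 b) (t58 b)
noncomputable def v59 (x1 x2 : ℝ) : ℝ := v55 x1 x2 * v58 x1 x2
theorem h59 (h : In b E x1 x2) : Enc S E (t59 b) (v59 x1 x2) := enc_mul hS (h55 h) (h58 h)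

def t61 (b : Bx) : TM := tsub (t46 b) (t59 b)
noncomputable def v61 (x1 x2 : ℝ) : ℝ := v46 x1 x2 - v59 x1 x2
theorem h61 (h : In b E x1 x2) : Enc S E (t61 b) (v61 x1 x2) := enc_sub (h46 h) (h59 h)

def t62 (b : Bx) : TM := tinv S (t2 b)
noncomputable def v62 (x1 x2 : ℝ) : ℝ := (v2 x1 x2)⁻¹
theorem h62 (h : In b E x1 x2) : Enc S E (t62 b) (v62 x1 x2) := enc_inv hS (h2 h)

def t63 (b : Bx) : TM := tmul S (t25 b) (t62 b)
noncomputable def v63 (x1 x2 : ℝ) : ℝ := v25 x1 x2 * v62 x1 x2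
theorem h63 (h : In b E x1 x2) : Enc S E (t63 b) (v63 x1 x2) := enc_mul hS (h25 h) (h62 h)

def t66 (b : Bx) : TM := tadd (t5 b) (t63 b)
noncomputable def v66 (x1 x2 : ℝ) : ℝ := v5 x1 x2 + v63 x1 x2
theorem h66 (h : In b E x1 x2) : Enc S E (t66 b) (v66 x1 x2) := enc_add (h5 h) (h63 h)

def t67 (b : Bx) : TM := tsub (t66 b) (t24 b)
noncomputable def v67 (x1 x2 : ℝ) : ℝ := v66 x1 x2 - v24 x1 x2
theorem h67 (h : In b E x1 x2) : Enc S E (t67 b) (v67 x1 x2) := enc_sub (h66 h) (h24 h)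

def t68 (b : Bx) : TM := tinv S (t67 b)
noncomputable def v68 (x1 x2 : ℝ) : ℝ := (v67 x1 x2)⁻¹
theorem h68 (h : In b E x1 x2) : Enc S E (t68 b) (v68 x1 x2) := enc_inv hS (h67 h)

def t70 (b : Bx) : TM := tmul S (t56 b) (t62 b)
noncomputable def v70 (x1 x2 : ℝ) : ℝ := v56 x1 x2 * v62 x1 x2
theorem h70 (h : In b E x1 x2) : Enc S E (t70 b) (v70 x1 x2) := enc_mul hS (h56 h) (h62 h)

def t71 (b : Bx) : TM := tmul S (t55 b) (t62 b)
noncomputable def v71 (x1 x2 : ℝ) : ℝ := v55 x1 x2 * v62 x1 x2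
theorem h71 (h : In b E x1 x2) : Enc S E (t71 b) (v71 x1 x2) := enc_mul hS (h55 h) (h62 h)

def t72 (b : Bx) : TM := tsub (t70 b) (t44 b)
noncomputable def v72 (x1 x2 : ℝ) : ℝ := v70 x1 x2 - v44 x1 x2
theorem h72 (h : In b E x1 x2) : Enc S E (t72 b) (v72 x1 x2) := enc_sub (h70 h) (h44 h)

def t73 (b : Bx) : TM := tadd (t71 b) (t5 b)
noncomputable def v73 (x1 x2 : ℝ) : ℝ := v71 x1 x2 + v5 x1 x2
theorem h73 (h : In b E x1 x2) : Enc S E (t73 b) (v73 x1 x2) := enc_add (h71 h) (h5 h)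

def t74 (b : Bx) : TM := tmul S (t44 b) (t72 b)
noncomputable def v74 (x1 x2 : ℝ) : ℝ := v44 x1 x2 * v72 x1 x2
theorem h74 (h : In b E x1 x2) : Enc S E (t74 b) (v74 x1 x2) := enc_mul hS (h44 h) (h72 h)

def t75 (b : Bx) : TM := tsub (t24 b) (t63 b)
noncomputable def v75 (x1 x2 : ℝ) : ℝ := v24 x1 x2 - v63 x1 x2
theorem h75 (h : In b E x1 x2) : Enc S E (t75 b) (v75 x1 x2) := enc_sub (h24 h) (h63 h)

def t76 (b : Bx) : TM := tmul S (t44 b) (t73 b)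
noncomputable def v76 (x1 x2 : ℝ) : ℝ := v44 x1 x2 * v73 x1 x2
theorem h76 (h : In b E x1 x2) : Enc S E (t76 b) (v76 x1 x2) := enc_mul hS (h44 h) (h73 h)

def t77 (b : Bx) : TM := tadd (t75 b) (t76 b)
noncomputable def v77 (x1 x2 : ℝ) : ℝ := v75 x1 x2 + v76 x1 x2
theorem h77 (h : In b E x1 x2) : Enc S E (t77 b) (v77 x1 x2) := enc_add (h75 h) (h76 h)

def t78 (b : Bx) : TM := tadd (t5 b) (t70 b)
noncomputable def v78 (x1 x2 : ℝ) : ℝ := v5 x1 x2 + v70 x1 x2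
theorem h78 (h : In b E x1 x2) : Enc S E (t78 b) (v78 x1 x2) := enc_add (h5 h) (h70 h)

def t79 (b : Bx) : TM := tsub (t78 b) (t44 b)
noncomputable def v79 (x1 x2 : ℝ) : ℝ := v78 x1 x2 - v44 x1 x2
theorem h79 (h : In b E x1 x2) : Enc S E (t79 b) (v79 x1 x2) := enc_sub (h78 h) (h44 h)

def t80 (b : Bx) : TM := tinv S (t79 b)
noncomputable def v80 (x1 x2 : ℝ) : ℝ := (v79 x1 x2)⁻¹
theorem h80 (h : In b E x1 x2) : Enc S E (t80 b) (v80 x1 x2) := enc_inv hS (h79 h)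

def t81 (b : Bx) : TM := tmul S (t68 b) (t80 b)
noncomputable def v81 (x1 x2 : ℝ) : ℝ := v68 x1 x2 * v80 x1 x2
theorem h81 (h : In b E x1 x2) : Enc S E (t81 b) (v81 x1 x2) := enc_mul hS (h68 h) (h80 h)

def t82 (b : Bx) : TM := tmul S (t73 b) (t81 b)
noncomputable def v82 (x1 x2 : ℝ) : ℝ := v73 x1 x2 * v81 x1 x2
theorem h82 (h : In b E x1 x2) : Enc S E (t82 b) (v82 x1 x2) := enc_mul hS (h73 h) (h81 h)

def t85 (b : Bx) : TM := tmul S (t77 b) (t68 b)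
noncomputable def v85 (x1 x2 : ℝ) : ℝ := v77 x1 x2 * v68 x1 x2
theorem h85 (h : In b E x1 x2) : Enc S E (t85 b) (v85 x1 x2) := enc_mul hS (h77 h) (h68 h)

def t86 (b : Bx) : TM := tmul S (t74 b) (t82 b)
noncomputable def v86 (x1 x2 : ℝ) : ℝ := v74 x1 x2 * v82 x1 x2
theorem h86 (h : In b E x1 x2) : Enc S E (t86 b) (v86 x1 x2) := enc_mul hS (h74 h) (h82 h)

def t88 (b : Bx) : TM := tsub (t85 b) (t86 b)
noncomputable def v88 (x1 x2 : ℝ) : ℝ := v85 x1 x2 - v86 x1 x2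
theorem h88 (h : In b E x1 x2) : Enc S E (t88 b) (v88 x1 x2) := enc_sub (h85 h) (h86 h)

def t89 (b : Bx) : TM := kx3_t (t24 b) (t25 b)
noncomputable def v89 (x1 x2 : ℝ) : ℝ := kx3_v (v24 x1 x2) (v25 x1 x2)
theorem h89 (h : In b E x1 x2) : Enc S E (t89 b) (v89 x1 x2) := kx3_enc (h24 h) (h25 h)

def t90 (b : Bx) : TM := f1p_t (t25 b)
noncomputable def v90 (x1 x2 : ℝ) : ℝ := f1p_v (v25 x1 x2)
theorem h90 (h : In b E x1 x2) : Enc S E (t90 b) (v90 x1 x2) := f1p_enc (h25 h)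

def t91 (b : Bx) : TM := tsub (t24 b) (t90 b)
noncomputable def v91 (x1 x2 : ℝ) : ℝ := v24 x1 x2 - v90 x1 x2
theorem h91 (h : In b E x1 x2) : Enc S E (t91 b) (v91 x1 x2) := enc_sub (h24 h) (h90 h)

def t94 (b : Bx) : TM := tmul S (t61 b) (t89 b)
noncomputable def v94 (x1 x2 : ℝ) : ℝ := v61 x1 x2 * v89 x1 x2
theorem h94 (h : In b E x1 x2) : Enc S E (t94 b) (v94 x1 x2) := enc_mul hS (h61 h) (h89 h)

def t95 (b : Bx) : TM := tadd (t88 b) (t94 b)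
noncomputable def v95 (x1 x2 : ℝ) : ℝ := v88 x1 x2 + v94 x1 x2
theorem h95 (h : In b E x1 x2) : Enc S E (t95 b) (v95 x1 x2) := enc_add (h88 h) (h94 h)

def t96 (b : Bx) : TM := tmul S (t7 b) (t23 b)
noncomputable def v96 (x1 x2 : ℝ) : ℝ := v7 x1 x2 * v23 x1 x2
theorem h96 (h : In b E x1 x2) : Enc S E (t96 b) (v96 x1 x2) := enc_mul hS (h7 h) (h23 h)

def t97 (b : Bx) : TM := tmul S (t1 b) (t0 b)
noncomputable def v97 (x1 x2 : ℝ) : ℝ := v1 x1 x2 * v0 x1 x2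
theorem h97 (h : In b E x1 x2) : Enc S E (t97 b) (v97 x1 x2) := enc_mul hS (h1 h) (h0 h)

def t98 (b : Bx) : TM := tsub (t96 b) (t97 b)
noncomputable def v98 (x1 x2 : ℝ) : ℝ := v96 x1 x2 - v97 x1 x2
theorem h98 (h : In b E x1 x2) : Enc S E (t98 b) (v98 x1 x2) := enc_sub (h96 h) (h97 h)

def t99 (b : Bx) : TM := tmul S (t98 b) (t62 b)
noncomputable def v99 (x1 x2 : ℝ) : ℝ := v98 x1 x2 * v62 x1 x2
theorem h99 (h : In b E x1 x2) : Enc S E (t99 b) (v99 x1 x2) := enc_mul hS (h98 h) (h62 h)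

def t100 (b : Bx) : TM := tsub (t99 b) (t9 b)
noncomputable def v100 (x1 x2 : ℝ) : ℝ := v99 x1 x2 - v9 x1 x2
theorem h100 (h : In b E x1 x2) : Enc S E (t100 b) (v100 x1 x2) := enc_sub (h99 h) (h9 h)

def t102 (b : Bx) : TM := tmul S (t7 b) (t55 b)
noncomputable def v102 (x1 x2 : ℝ) : ℝ := v7 x1 x2 * v55 x1 x2
theorem h102 (h : In b E x1 x2) : Enc S E (t102 b) (v102 x1 x2) := enc_mul hS (h7 h) (h55 h)

def t106 (b : Bx) : TM := tadd (t102 b) (t0 b)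
noncomputable def v106 (x1 x2 : ℝ) : ℝ := v102 x1 x2 + v0 x1 x2
theorem h106 (h : In b E x1 x2) : Enc S E (t106 b) (v106 x1 x2) := enc_add (h102 h) (h0 h)

def t108 (b : Bx) : TM := tmul S (t106 b) (t62 b)
noncomputable def v108 (x1 x2 : ℝ) : ℝ := v106 x1 x2 * v62 x1 x2
theorem h108 (h : In b E x1 x2) : Enc S E (t108 b) (v108 x1 x2) := enc_mul hS (h106 h) (h62 h)

def t110 (b : Bx) : TM := tsub (t0 b) (t3 b)
noncomputable def v110 (x1 x2 : ℝ) : ℝ := v0 x1 x2 - v3 x1 x2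
theorem h110 (h : In b E x1 x2) : Enc S E (t110 b) (v110 x1 x2) := enc_sub (h0 h) (h3 h)

def t111 (b : Bx) : TM := tsub (t23 b) (t3 b)
noncomputable def v111 (x1 x2 : ℝ) : ℝ := v23 x1 x2 - v3 x1 x2
theorem h111 (h : In b E x1 x2) : Enc S E (t111 b) (v111 x1 x2) := enc_sub (h23 h) (h3 h)

def t112 (b : Bx) : TM := tsub (t25 b) (t2 b)
noncomputable def v112 (x1 x2 : ℝ) : ℝ := v25 x1 x2 - v2 x1 x2
theorem h112 (h : In b E x1 x2) : Enc S E (t112 b) (v112 x1 x2) := enc_sub (h25 h) (h2 h)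

def t113 (b : Bx) : TM := tadd (t95 b) (t5 b)
noncomputable def v113 (x1 x2 : ℝ) : ℝ := v95 x1 x2 + v5 x1 x2
theorem h113 (h : In b E x1 x2) : Enc S E (t113 b) (v113 x1 x2) := enc_add (h95 h) (h5 h)

def t115 (b : Bx) : TM := tsub (t3 b) (t0 b)
noncomputable def v115 (x1 x2 : ℝ) : ℝ := v3 x1 x2 - v0 x1 x2
theorem h115 (h : In b E x1 x2) : Enc S E (t115 b) (v115 x1 x2) := enc_sub (h3 h) (h0 h)

def t116 (b : Bx) : TM := tmul S (t55 b) (t36 b)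
noncomputable def v116 (x1 x2 : ℝ) : ℝ := v55 x1 x2 * v36 x1 x2
theorem h116 (h : In b E x1 x2) : Enc S E (t116 b) (v116 x1 x2) := enc_mul hS (h55 h) (h36 h)

def t117 (b : Bx) : TM := tsub (t115 b) (t116 b)
noncomputable def v117 (x1 x2 : ℝ) : ℝ := v115 x1 x2 - v116 x1 x2
theorem h117 (h : In b E x1 x2) : Enc S E (t117 b) (v117 x1 x2) := enc_sub (h115 h) (h116 h)

def t118 (b : Bx) : TM := tmul S (t111 b) (t113 b)
noncomputable def v118 (x1 x2 : ℝ) : ℝ := v111 x1 x2 * v113 x1 x2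
theorem h118 (h : In b E x1 x2) : Enc S E (t118 b) (v118 x1 x2) := enc_mul hS (h111 h) (h113 h)

def t119 (b : Bx) : TM := tsub (t117 b) (t118 b)
noncomputable def v119 (x1 x2 : ℝ) : ℝ := v117 x1 x2 - v118 x1 x2
theorem h119 (h : In b E x1 x2) : Enc S E (t119 b) (v119 x1 x2) := enc_sub (h117 h) (h118 h)

def t122 (b : Bx) : TM := tsub (t3 b) (t23 b)
noncomputable def v122 (x1 x2 : ℝ) : ℝ := v3 x1 x2 - v23 x1 x2
theorem h122 (h : In b E x1 x2) : Enc S E (t122 b) (v122 x1 x2) := enc_sub (h3 h) (h23 h)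

def t123 (b : Bx) : TM := tsub (t2 b) (t25 b)
noncomputable def v123 (x1 x2 : ℝ) : ℝ := v2 x1 x2 - v25 x1 x2
theorem h123 (h : In b E x1 x2) : Enc S E (t123 b) (v123 x1 x2) := enc_sub (h2 h) (h25 h)

def t124 (b : Bx) : TM := qn_t (t111 b) (t123 b) (t108 b) (t119 b) (t113 b)
noncomputable def v124 (x1 x2 : ℝ) : ℝ := qn_v (v111 x1 x2) (v123 x1 x2) (v108 x1 x2) (v119 x1 x2) (v113 x1 x2)
theorem h124 (h : In b E x1 x2) : Enc S E (t124 b) (v124 x1 x2) := qn_enc (h111 h) (h123 h) (h108 h) (h119 h) (h113 h)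

def t125 (b : Bx) : TM := tscale 1 4 (t2 b)
noncomputable def v125 (x1 x2 : ℝ) : ℝ := ((1 : ℕ) : ℝ) / ((4 : ℕ) : ℝ) * v2 x1 x2
theorem h125 (h : In b E x1 x2) : Enc S E (t125 b) (v125 x1 x2) := enc_scale 1 (by norm_num) (h2 h)

def t127 (b : Bx) : TM := tsub (t125 b) (t0 b)
noncomputable def v127 (x1 x2 : ℝ) : ℝ := v125 x1 x2 - v0 x1 x2
theorem h127 (h : In b E x1 x2) : Enc S E (t127 b) (v127 x1 x2) := enc_sub (h125 h) (h0 h)

def t128 (b : Bx) : TM := tscale 3 4 (t2 b)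
noncomputable def v128 (x1 x2 : ℝ) : ℝ := ((3 : ℕ) : ℝ) / ((4 : ℕ) : ℝ) * v2 x1 x2
theorem h128 (h : In b E x1 x2) : Enc S E (t128 b) (v128 x1 x2) := enc_scale 3 (by norm_num) (h2 h)

def t130 (b : Bx) : TM := tsub (t23 b) (t128 b)
noncomputable def v130 (x1 x2 : ℝ) : ℝ := v23 x1 x2 - v128 x1 x2
theorem h130 (h : In b E x1 x2) : Enc S E (t130 b) (v130 x1 x2) := enc_sub (h23 h) (h128 h)

def t132 (b : Bx) : TM := tsub (t128 b) (t25 b)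
noncomputable def v132 (x1 x2 : ℝ) : ℝ := v128 x1 x2 - v25 x1 x2
theorem h132 (h : In b E x1 x2) : Enc S E (t132 b) (v132 x1 x2) := enc_sub (h128 h) (h25 h)

def t133 (_b : Bx) : TM := tconst (Nat.div (Nat.mul 1 S) 16) 0 1
noncomputable def v133 (_x1 _x2 : ℝ) : ℝ := ((1 : ℕ) : ℝ) / ((16 : ℕ) : ℝ)
theorem h133 (_h : In b E x1 x2) : Enc S E (t133 b) (v133 x1 x2) := enc_rat E 1 (by norm_num)

def t134 (b : Bx) : TM := tsub (t26 b) (t133 b)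
noncomputable def v134 (x1 x2 : ℝ) : ℝ := v26 x1 x2 - v133 x1 x2
theorem h134 (h : In b E x1 x2) : Enc S E (t134 b) (v134 x1 x2) := enc_sub (h26 h) (h133 h)

def t135 (b : Bx) : TM := tsub (t20 b) (t133 b)
noncomputable def v135 (x1 x2 : ℝ) : ℝ := v20 x1 x2 - v133 x1 x2
theorem h135 (h : In b E x1 x2) : Enc S E (t135 b) (v135 x1 x2) := enc_sub (h20 h) (h133 h)

def t136 (b : Bx) : TM := tsub (t40 b) (t39 b)
noncomputable def v136 (x1 x2 : ℝ) : ℝ := v40 x1 x2 - v39 x1 x2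
theorem h136 (h : In b E x1 x2) : Enc S E (t136 b) (v136 x1 x2) := enc_sub (h40 h) (h39 h)

def t137 (b : Bx) : TM := tadd (t100 b) (t9 b)
noncomputable def v137 (x1 x2 : ℝ) : ℝ := v100 x1 x2 + v9 x1 x2
theorem h137 (h : In b E x1 x2) : Enc S E (t137 b) (v137 x1 x2) := enc_add (h100 h) (h9 h)

def t138 (b : Bx) : TM := tneg (t137 b)
noncomputable def v138 (x1 x2 : ℝ) : ℝ := -(v137 x1 x2)
theorem h138 (h : In b E x1 x2) : Enc S E (t138 b) (v138 x1 x2) := enc_neg (h137 h)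

def g0 (b : Bx) : Bool := and (pos (t61 b)) (and (pos (t22 b)) (and (pos (t53 b)) (and (pos (t67 b)) (and (pos (t79 b)) (and (pos (t91 b)) (and (pos (t34 b)) (or (pos (t20 b)) (pos (t124 b)))))))))

def l0 (b : Bx) : Nat := cond (g0 b) 0 (pickb 1 (t124 b) b)

def P0 (x1 x2 : ℝ) : Prop := 0 < v61 x1 x2 ∧ 0 < v22 x1 x2 ∧ 0 < v53 x1 x2 ∧ 0 < v67 x1 x2 ∧ 0 < v79 x1 x2 ∧ 0 < v91 x1 x2 ∧ 0 < v34 x1 x2 ∧ (0 < v20 x1 x2 ∨ 0 < v124 x1 x2)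

theorem l0_sound (h : In b E x1 x2) (e : l0 b = 0) : P0 x1 x2 := by
  have e1 : g0 b = true := by
    rcases e2 : g0 b with _ | _
    · unfold l0 at e; rw [e2, cond_false] at e; exact absurd e (pickb_ne _ _ _)
    · rfl
  exact ⟨pos_sound hS (h61 h) (Bool.and_eq_true_iff.mp e1).1, ⟨pos_sound hS (h22 h) (Bool.and_eq_true_iff.mp (Bool.and_eq_true_iff.mp e1).2).1, ⟨pos_sound hS (h53 h) (Bool.and_eq_true_iff.mp (Bool.and_eq_true_iff.mp (Bool.and_eq_true_iff.mp e1).2).2).1, ⟨pos_sound hS (h67 h) (Bool.and_eq_true_iff.mp (Bool.and_eq_true_iff.mp (Bool.and_eq_true_iff.mp (Bool.and_eq_true_iff.mp e1).2).2).2).1, ⟨pos_sound hS (h79 h) (Bool.and_eq_true_iff.mp (Bool.and_eq_true_iff.mp (Bool.and_eq_true_iff.mp (Bool.and_eq_true_iff.mp (Bool.and_eq_true_iff.mp e1).2).2).2).2).1, ⟨pos_sound hS (h91 h) (Bool.and_eq_true_iff.mp (Bool.and_eq_true_iff.mp (Bool.and_eq_true_iff.mp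 (Bool.and_eq_true_iff.mp (Bool.and_eq_true_iff.mp (Bool.and_eq_true_iff.mp e1).2).2).2).2).2).1, ⟨pos_sound hS (h34 h) (Bool.and_eq_true_iff.mp (Bool.and_eq_true_iff.mp (Bool.and_eq_true_iff.mp (Bool.and_eq_true_iff.mp (Bool.and_eq_true_iff.mp (Bool.and_eq_true_iff.mp (Bool.and_eq_true_iff.mp e1).2).2).2).2).2).2).1, ((Bool.or_eq_true_iff.mp (Bool.and_eq_true_iff.mp (Bool.and_eq_true_iff.mp (Bool.and_eq_true_iff.mp (Bool.and_eq_true_iff.mp (Bool.and_eq_true_iff.mp (Bool.and_eq_true_iff.mp (Bool.and_eq_true_iff.mp e1).2).2).2).2).2).2).2).imp (fun a => pos_sound hS (h20 h) a) (fun a => pos_sound hS (h124 h) a))⟩⟩⟩⟩⟩⟩⟩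

def g1 (b : Bx) : Bool := or (pos (t127 b)) (or (pos (t110 b)) (or (pos (t122 b)) (or (pos (t130 b)) (or (pos (t132 b)) (or (pos (t134 b)) (or (pos (t135 b)) (or (pos (t112 b)) (or (pos (t136 b)) (pos (t138 b))))))))))

def l1 (b : Bx) : Nat := cond (g1 b) 0 (l0 b)

def P1 (x1 x2 : ℝ) : Prop := (0 < v127 x1 x2 ∨ 0 < v110 x1 x2 ∨ 0 < v122 x1 x2 ∨ 0 < v130 x1 x2 ∨ 0 < v132 x1 x2 ∨ 0 < v134 x1 x2 ∨ 0 < v135 x1 x2 ∨ 0 < v112 x1 x2 ∨ 0 < v136 x1 x2 ∨ 0 < v138 x1 x2) ∨ (P0 x1 x2)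

theorem l1_sound (h : In b E x1 x2) (e : l1 b = 0) : P1 x1 x2 := by
  unfold l1 at e
  rcases e1 : g1 b with _ | _
  · rw [e1, cond_false] at e
    have z0 : l0 b = 0 := e
    exact Or.inr (l0_sound h z0)
  · exact Or.inl (((Bool.or_eq_true_iff.mp e1).imp (fun a => pos_sound hS (h127 h) a) (fun a => ((Bool.or_eq_true_iff.mp a).imp (fun a => pos_sound hS (h110 h) a) (fun a => ((Bool.or_eq_true_iff.mp a).imp (fun a => pos_sound hS (h122 h) a) (fun a => ((Bool.or_eq_true_iff.mp a).imp (fun a => pos_sound hS (h130 h) a) (fun a => ((Bool.or_eq_true_iff.mp a).imp (fun a => pos_sound hS (h132 h) a) (fun a => ((Bool.or_eq_true_iff.mp a).imp (fun a => pos_sound hS (h134 h) a) (fun a => ((Bool.or_eq_true_iff.mp a).imp (fun a => pos_sound hS (h135 h) a) (fun a => ((Bool.or_eq_true_iff.mp a).imp (fun a => pos_sound hS (h112 h) a) (fun a => ((Bool.or_eq_true_iff.mp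 a).imp (fun a => pos_sound hS (h136 h) a) (fun a => pos_sound hS (h138 h) a)))))))))))))))))))

def f (b : Bx) : Nat := l1 b

/-- the statement -/
def Q (x1 x2 : ℝ) : Prop := P1 x1 x2

theorem f_sound (b : Bx) (hb : f b = 0) (x1 x2 : ℝ) (hm : Mem S b x1 x2) : Q x1 x2 := by
  obtain ⟨E, h⟩ := pt_of_mem hm
  have h : In b E x1 x2 := h
  unfold f at hb
  have e := hb
  have z1 : l1 b = 0 := e
  exact (l1_sound h z1)

/-- the box -/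
def b0 : Bx := ⟨697415773, 0, 232471926, 268435456, 0, 268435457⟩

theorem chk_all {n : ℕ} {b : Bx} (h : chk f n b = true) (x1 x2 : ℝ) (hm : Mem S b x1 x2) : Q x1 x2 :=
  chk_sound (fun b hb x1 x2 hm => f_sound b hb x1 x2 hm) n b h x1 x2 hm


end Pool.Agent.Strip051.LB.ChA00V1_pp_123
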