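import Pool.Agent.Strip051.LB.ChA00V1_pp_123.Defs
import Pool.Agent.Strip051.LB.Slope
import Pool.Agent.Strip051.LB.Star
import Pool.Agent.Strip051.LB.Cf

/-! # LINE tight chart ChA00V1_pp_123: slopes -/

namespace Pool.Agent.Strip051.LB.ChA00V1_pp_123

open Pool.Agent.Strip051.LB Pool.Agent.Strip051.LB.Fn Pool.Agent.Strip051.LB.Fc Pool.Agent.StripNear

set_option maxRecDepth 100000
set_option linter.all false

noncomputable def v41 (x1 x2 : ℝ) : ℝ := v39 x1 x2 - v40 x1 x2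

noncomputable def v43 (x1 x2 : ℝ) : ℝ := -(v5 x1 x2)

noncomputable def v45 (x1 x2 : ℝ) : ℝ := (v44 x1 x2) ^ 2

noncomputable def v47 (x1 x2 : ℝ) : ℝ := -(v46 x1 x2)

noncomputable def v48 (x1 x2 : ℝ) : ℝ := v38 x1 x2 - v45 x1 x2

noncomputable def v49 (x1 x2 : ℝ) : ℝ := (v12 x1 x2) ^ 2

noncomputable def v51 (x1 x2 : ℝ) : ℝ := -(v50 x1 x2)

noncomputable def v52 (x1 x2 : ℝ) : ℝ := v5 x1 x2 - v49 x1 x2

noncomputable def v57 (x1 x2 : ℝ) : ℝ := (v56 x1 x2) ^ 2

noncomputable def v60 (x1 x2 : ℝ) : ℝ := v48 x1 x2 - v57 x1 x2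

noncomputable def v64 (x1 x2 : ℝ) : ℝ := v63 x1 x2 - v24 x1 x2

noncomputable def v65 (x1 x2 : ℝ) : ℝ := v24 x1 x2 * v64 x1 x2

noncomputable def v69 (x1 x2 : ℝ) : ℝ := v65 x1 x2 * v68 x1 x2

noncomputable def v83 (x1 x2 : ℝ) : ℝ := -(v82 x1 x2)

noncomputable def v84 (x1 x2 : ℝ) : ℝ := v74 x1 x2 * v80 x1 x2

noncomputable def v92 (x1 x2 : ℝ) : ℝ := v41 x1 x2 * v89 x1 x2

noncomputable def v93 (x1 x2 : ℝ) : ℝ := v69 x1 x2 + v92 x1 x2

noncomputable def v101 (x1 x2 : ℝ) : ℝ := v7 x1 x2 * v15 x1 x2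

noncomputable def v103 (x1 x2 : ℝ) : ℝ := v12 x1 x2 * v0 x1 x2

noncomputable def v104 (x1 x2 : ℝ) : ℝ := -(v0 x1 x2)

noncomputable def v105 (x1 x2 : ℝ) : ℝ := v101 x1 x2 - v103 x1 x2

noncomputable def v107 (x1 x2 : ℝ) : ℝ := v105 x1 x2 * v62 x1 x2

noncomputable def v109 (x1 x2 : ℝ) : ℝ := v107 x1 x2 - v9 x1 x2

noncomputable def v114 (x1 x2 : ℝ) : ℝ := v15 x1 x2 - v3 x1 x2

noncomputable def v139 (x1 x2 : ℝ) : ℝ := v56 x1 x2 - v2 x1 x2

structure Cx (x1 x2 : ℝ) : Prop where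
  hc : v7 x1 x2 ^ 2 + x1 ^ 2 = 1
  p22 : 0 < v22 x1 x2
  p53 : 0 < v53 x1 x2
  p67 : 0 < v67 x1 x2
  p79 : 0 < v79 x1 x2
  p91 : 0 < v91 x1 x2
  p34 : 0 < v34 x1 x2

variable {x1 x2 : ℝ}

theorem s3q (x1 x2 : ℝ) : v2 x1 x2 ^ 2 = 3 := by
  rw [v2]; exact s3sq

theorem s3ne (x1 x2 : ℝ) : v2 x1 x2 ≠ 0 := by
  rw [v2]; positivity

theorem s1 (c : Cx x1 x2) : v1 x1 x2 = v12 x1 x2 + v26 x1 x2 * v43 x1 x2 := by
  simp only [v1, v5, v10, v12, v26, v43]
  (try push_cast)
  first | ring | grind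

theorem s21 (c : Cx x1 x2) : v21 x1 x2 = v49 x1 x2 + v26 x1 x2 * v51 x1 x2 := by
  have a0 : (v1 x1 x2 + v12 x1 x2) * v1 x1 x2 = (v1 x1 x2 + v12 x1 x2) * (v12 x1 x2 + v26 x1 x2 * v43 x1 x2) := congrArg (fun z => (v1 x1 x2 + v12 x1 x2) * z) (s1 c)
  try simp only [v1, v5, v10, v12, v21, v26, v43, v49, v50, v51] at a0
  simp only [v1, v5, v10, v12, v21, v26, v43, v49, v50, v51]
  (try push_cast at a0 ⊢)
  first | linear_combination a0 | ring | grind

theorem s22 (c : Cx x1 x2) : v22 x1 x2 = v52 x1 x2 + v26 x1 x2 * v50 x1 x2 := by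
  have a1 := s21 c
  try simp only [v1, v5, v10, v12, v22, v26, v50, v51, v52] at a1
  simp only [v1, v5, v10, v12, v22, v26, v50, v51, v52]
  (try push_cast at a1 ⊢)
  first | linear_combination -a1 | ring | grind

theorem q23 (c : Cx x1 x2) : v52 x1 x2 = v15 x1 x2 ^ 2 := by
  have hc := c.hc
  have h3 := s3q x1 x2
  simp only [v0, v3, v5, v10, v11, v12, v13, v14, v15, v49, v52] at hc ⊢
  push_cast at hc ⊢
  grind

theorem s23 (c : Cx x1 x2) : v23 x1 x2 = v15 x1 x2 + v26 x1 x2 * v55 x1 x2 := by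
  have a0 := s22 c
  have e : 0 < Real.sqrt (v22 x1 x2) + v15 x1 x2 := by
    have e := c.p53
    simp only [v0, v5, v13, v15, v22, v23, v53] at e ⊢
    push_cast at e ⊢
    linarith
  have b := sl_sqrt a0 (q23 c) (le_of_lt c.p22) e
  clear a0
  try simp only [v0, v1, v5, v10, v12, v13, v15, v22, v23, v26, v50, v52, v53, v54, v55] at b
  simp only [v0, v1, v5, v10, v12, v13, v15, v22, v23, v26, v50, v52, v53, v54, v55]
  (try push_cast at b ⊢)
  first | linear_combination b | ring | grind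

theorem s24 (c : Cx x1 x2) : v24 x1 x2 = v44 x1 x2 + v26 x1 x2 * v43 x1 x2 := by
  have a1 := s1 c
  try simp only [v1, v5, v10, v12, v24, v26, v43, v44] at a1
  simp only [v1, v5, v10, v12, v24, v26, v43, v44]
  (try push_cast at a1 ⊢)
  first | linear_combination a1 | ring | grind

theorem s25 (c : Cx x1 x2) : v25 x1 x2 = v56 x1 x2 + v26 x1 x2 * v55 x1 x2 := by
  have a1 := s23 c
  try simp only [v0, v1, v10, v12, v13, v15, v25, v26, v56] at a1
  simp only [v0, v1, v10, v12, v13, v15, v25, v26, v56]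
  (try push_cast at a1 ⊢)
  first | linear_combination a1 | ring | grind

theorem s37 (c : Cx x1 x2) : v37 x1 x2 = v45 x1 x2 + v26 x1 x2 * v47 x1 x2 := by
  have a0 : (v24 x1 x2 + v44 x1 x2) * v24 x1 x2 = (v24 x1 x2 + v44 x1 x2) * (v44 x1 x2 + v26 x1 x2 * v43 x1 x2) := congrArg (fun z => (v24 x1 x2 + v44 x1 x2) * z) (s24 c)
  try simp only [v1, v5, v10, v12, v24, v26, v37, v43, v44, v45, v46, v47] at a0
  simp only [v1, v5, v10, v12, v24, v26, v37, v43, v44, v45, v46, v47]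
  (try push_cast at a0 ⊢)
  first | linear_combination a0 | ring | grind

theorem s39 (c : Cx x1 x2) : v39 x1 x2 = v48 x1 x2 + v26 x1 x2 * v46 x1 x2 := by
  have a1 := s37 c
  try simp only [v1, v10, v12, v24, v26, v38, v39, v44, v46, v47, v48] at a1
  simp only [v1, v10, v12, v24, v26, v38, v39, v44, v46, v47, v48]
  (try push_cast at a1 ⊢)
  first | linear_combination -a1 | ring | grind

theorem s40 (c : Cx x1 x2) : v40 x1 x2 = v57 x1 x2 + v26 x1 x2 * v59 x1 x2 := by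
  have a0 : (v25 x1 x2 + v56 x1 x2) * v25 x1 x2 = (v25 x1 x2 + v56 x1 x2) * (v56 x1 x2 + v26 x1 x2 * v55 x1 x2) := congrArg (fun z => (v25 x1 x2 + v56 x1 x2) * z) (s25 c)
  try simp only [v0, v1, v10, v12, v13, v15, v25, v26, v40, v56, v57, v58, v59] at a0
  simp only [v0, v1, v10, v12, v13, v15, v25, v26, v40, v56, v57, v58, v59]
  (try push_cast at a0 ⊢)
  first | linear_combination a0 | ring | grind

theorem s41 (c : Cx x1 x2) : v41 x1 x2 = v60 x1 x2 + v26 x1 x2 * v61 x1 x2 := by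
  have a0 := s39 c
  have a1 := s40 c
  try simp only [v1, v10, v12, v24, v26, v38, v39, v41, v44, v46, v48, v60, v61] at a0
  try simp only [v1, v10, v12, v24, v26, v38, v39, v41, v44, v46, v48, v60, v61] at a1
  simp only [v1, v10, v12, v24, v26, v38, v39, v41, v44, v46, v48, v60, v61]
  (try push_cast at a0 a1 ⊢)
  first | linear_combination a0 - a1 | ring | grind

theorem s63 (c : Cx x1 x2) : v63 x1 x2 = v70 x1 x2 + v26 x1 x2 * v71 x1 x2 := by
  have a0 : (v62 x1 x2) * v25 x1 x2 = (v62 x1 x2) * (v56 x1 x2 + v26 x1 x2 * v55 x1 x2) := congrArg (fun z => (v62 x1 x2) * z) (s25 c)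
  try simp only [v0, v1, v10, v12, v13, v15, v25, v26, v56, v63, v70, v71] at a0
  simp only [v0, v1, v10, v12, v13, v15, v25, v26, v56, v63, v70, v71]
  (try push_cast at a0 ⊢)
  first | linear_combination a0 | ring | grind

theorem s64 (c : Cx x1 x2) : v64 x1 x2 = v72 x1 x2 + v26 x1 x2 * v73 x1 x2 := by
  have a0 := s63 c
  have a1 := s24 c
  try simp only [v1, v5, v10, v12, v24, v26, v43, v44, v64, v72, v73] at a0
  try simp only [v1, v5, v10, v12, v24, v26, v43, v44, v64, v72, v73] at a1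
  simp only [v1, v5, v10, v12, v24, v26, v43, v44, v64, v72, v73]
  (try push_cast at a0 a1 ⊢)
  first | linear_combination a0 - a1 | ring | grind

theorem s65 (c : Cx x1 x2) : v65 x1 x2 = v74 x1 x2 + v26 x1 x2 * v77 x1 x2 := by
  have a0 : (v64 x1 x2) * v24 x1 x2 = (v64 x1 x2) * (v44 x1 x2 + v26 x1 x2 * v43 x1 x2) := congrArg (fun z => (v64 x1 x2) * z) (s24 c)
  have a1 : (v44 x1 x2) * v64 x1 x2 = (v44 x1 x2) * (v72 x1 x2 + v26 x1 x2 * v73 x1 x2) := congrArg (fun z => (v44 x1 x2) * z) (s64 c)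
  try simp only [v1, v5, v10, v12, v24, v26, v43, v44, v64, v65, v72, v73, v74, v75, v76, v77] at a0
  try simp only [v1, v5, v10, v12, v24, v26, v43, v44, v64, v65, v72, v73, v74, v75, v76, v77] at a1
  simp only [v1, v5, v10, v12, v24, v26, v43, v44, v64, v65, v72, v73, v74, v75, v76, v77]
  (try push_cast at a0 a1 ⊢)
  first | linear_combination a0 + a1 | ring | grind

theorem s66 (c : Cx x1 x2) : v66 x1 x2 = v78 x1 x2 + v26 x1 x2 * v71 x1 x2 := by
  have a1 := s63 c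
  try simp only [v1, v5, v10, v12, v26, v66, v78] at a1
  simp only [v1, v5, v10, v12, v26, v66, v78]
  (try push_cast at a1 ⊢)
  first | linear_combination a1 | ring | grind

theorem s67 (c : Cx x1 x2) : v67 x1 x2 = v79 x1 x2 + v26 x1 x2 * v73 x1 x2 := by
  have a0 := s66 c
  have a1 := s24 c
  try simp only [v1, v5, v10, v12, v24, v26, v43, v44, v66, v67, v73, v78, v79] at a0
  try simp only [v1, v5, v10, v12, v24, v26, v43, v44, v66, v67, v73, v78, v79] at a1
  simp only [v1, v5, v10, v12, v24, v26, v43, v44, v66, v67, v73, v78, v79]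
  (try push_cast at a0 a1 ⊢)
  first | linear_combination a0 - a1 | ring | grind

theorem s68 (c : Cx x1 x2) : v68 x1 x2 = v80 x1 x2 + v26 x1 x2 * v83 x1 x2 := by
  have a0 := s67 c
  have b := sl_inv a0 (c.p67).ne' (c.p79).ne'
  clear a0
  try simp only [v1, v5, v10, v12, v24, v26, v44, v66, v67, v68, v73, v78, v79, v80, v81, v82, v83] at b
  simp only [v1, v5, v10, v12, v24, v26, v44, v66, v67, v68, v73, v78, v79, v80, v81, v82, v83]
  (try push_cast at b ⊢)
  first | linear_combination b | ring | grind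

theorem s69 (c : Cx x1 x2) : v69 x1 x2 = v84 x1 x2 + v26 x1 x2 * v88 x1 x2 := by
  have a0 : (v68 x1 x2) * v65 x1 x2 = (v68 x1 x2) * (v74 x1 x2 + v26 x1 x2 * v77 x1 x2) := congrArg (fun z => (v68 x1 x2) * z) (s65 c)
  have a1 : (v74 x1 x2) * v68 x1 x2 = (v74 x1 x2) * (v80 x1 x2 + v26 x1 x2 * v83 x1 x2) := congrArg (fun z => (v74 x1 x2) * z) (s68 c)
  try simp only [v1, v10, v12, v24, v26, v69, v75, v77, v83, v84, v85, v86, v88] at a0
  try simp only [v1, v10, v12, v24, v26, v69, v75, v77, v83, v84, v85, v86, v88] at a1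
  simp only [v1, v10, v12, v24, v26, v69, v75, v77, v83, v84, v85, v86, v88]
  (try push_cast at a0 a1 ⊢)
  first | linear_combination a0 + a1 | ring | grind

theorem s96 (c : Cx x1 x2) : v96 x1 x2 = v101 x1 x2 + v26 x1 x2 * v102 x1 x2 := by
  have a1 : (v7 x1 x2) * v23 x1 x2 = (v7 x1 x2) * (v15 x1 x2 + v26 x1 x2 * v55 x1 x2) := congrArg (fun z => (v7 x1 x2) * z) (s23 c)
  try simp only [v0, v1, v10, v12, v13, v15, v26, v96, v101, v102] at a1
  simp only [v0, v1, v10, v12, v13, v15, v26, v96, v101, v102]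
  (try push_cast at a1 ⊢)
  first | linear_combination a1 | ring | grind

theorem s97 (c : Cx x1 x2) : v97 x1 x2 = v103 x1 x2 + v26 x1 x2 * v104 x1 x2 := by
  have a0 : (v0 x1 x2) * v1 x1 x2 = (v0 x1 x2) * (v12 x1 x2 + v26 x1 x2 * v43 x1 x2) := congrArg (fun z => (v0 x1 x2) * z) (s1 c)
  try simp only [v0, v1, v5, v10, v12, v26, v43, v97, v103, v104] at a0
  simp only [v0, v1, v5, v10, v12, v26, v43, v97, v103, v104]
  (try push_cast at a0 ⊢)
  first | linear_combination a0 | ring | grind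

theorem s98 (c : Cx x1 x2) : v98 x1 x2 = v105 x1 x2 + v26 x1 x2 * v106 x1 x2 := by
  have a0 := s96 c
  have a1 := s97 c
  try simp only [v0, v1, v10, v12, v26, v98, v104, v105, v106] at a0
  try simp only [v0, v1, v10, v12, v26, v98, v104, v105, v106] at a1
  simp only [v0, v1, v10, v12, v26, v98, v104, v105, v106]
  (try push_cast at a0 a1 ⊢)
  first | linear_combination a0 - a1 | ring | grind

theorem s99 (c : Cx x1 x2) : v99 x1 x2 = v107 x1 x2 + v26 x1 x2 * v108 x1 x2 := by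
  have a0 : (v62 x1 x2) * v98 x1 x2 = (v62 x1 x2) * (v105 x1 x2 + v26 x1 x2 * v106 x1 x2) := congrArg (fun z => (v62 x1 x2) * z) (s98 c)
  try simp only [v0, v1, v10, v12, v26, v98, v99, v105, v106, v107, v108] at a0
  simp only [v0, v1, v10, v12, v26, v98, v99, v105, v106, v107, v108]
  (try push_cast at a0 ⊢)
  first | linear_combination a0 | ring | grind

theorem s100 (c : Cx x1 x2) : v100 x1 x2 = v109 x1 x2 + v26 x1 x2 * v108 x1 x2 := by
  have a0 := s99 c
  try simp only [v1, v9, v10, v12, v26, v100, v109] at a0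
  simp only [v1, v9, v10, v12, v26, v100, v109]
  (try push_cast at a0 ⊢)
  first | linear_combination a0 | ring | grind

theorem s111 (c : Cx x1 x2) : v111 x1 x2 = v114 x1 x2 + v26 x1 x2 * v55 x1 x2 := by
  have a0 := s23 c
  try simp only [v0, v1, v2, v3, v10, v12, v13, v15, v26, v111, v114] at a0
  simp only [v0, v1, v2, v3, v10, v12, v13, v15, v26, v111, v114]
  (try push_cast at a0 ⊢)
  first | linear_combination a0 | ring | grind

theorem s112 (c : Cx x1 x2) : v112 x1 x2 = v139 x1 x2 + v26 x1 x2 * v55 x1 x2 := by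
  have a0 := s25 c
  try simp only [v0, v1, v2, v10, v12, v13, v15, v25, v26, v56, v112, v139] at a0
  simp only [v0, v1, v2, v10, v12, v13, v15, v25, v26, v56, v112, v139]
  (try push_cast at a0 ⊢)
  first | linear_combination a0 | ring | grind

theorem bD (c : Cx x1 x2) : v60 x1 x2 = 0 := by
  have hc := c.hc
  have h3 := s3q x1 x2
  simp only [v0, v3, v10, v11, v12, v13, v14, v15, v38, v44, v45, v48, v56, v57, v60] at hc ⊢
  push_cast at hc ⊢
  grind

theorem sD (c : Cx x1 x2) : v41 x1 x2 = v26 x1 x2 * v61 x1 x2 := by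
  have h := s41 c
  rw [bD c, zero_add] at h
  exact h

theorem s93 (c : Cx x1 x2) : v93 x1 x2 = v84 x1 x2 + v26 x1 x2 * v95 x1 x2 := by
  have hA := s69 c
  have hd := sD c
  have hK : v89 x1 x2 * v41 x1 x2 = v89 x1 x2 * (v26 x1 x2 * v61 x1 x2) := congrArg (fun z => v89 x1 x2 * z) hd
  try simp only [v1, v10, v12, v24, v26, v38, v39, v41, v44, v46, v61, v88, v92, v93, v94, v95] at hA
  try simp only [v1, v10, v12, v24, v26, v38, v39, v41, v44, v46, v61, v88, v92, v93, v94, v95] at hK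
  simp only [v1, v10, v12, v24, v26, v38, v39, v41, v44, v46, v61, v88, v92, v93, v94, v95]
  (try push_cast at hA hK ⊢)
  first | linear_combination (hA + hK) | grind

theorem bE (c : Cx x1 x2) : v109 x1 x2 = 0 := by
  have hc := c.hc
  have h3 := s3q x1 x2
  have g0 : v2 x1 x2 ≠ 0 := s3ne x1 x2
  simp only [v0, v3, v9, v10, v11, v12, v13, v14, v15, v62, v101, v103, v105, v107, v109] at hc ⊢
  push_cast at hc ⊢
  grind

theorem hE (c : Cx x1 x2) : v100 x1 x2 = v26 x1 x2 * v108 x1 x2 := by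
  have h := s100 c
  rw [bE c, zero_add] at h
  exact h

theorem bS (c : Cx x1 x2) : v84 x1 x2 - v36 x1 x2 - v12 x1 x2 = 0 := by
  have hc := c.hc
  have h3 := s3q x1 x2
  have g0 := (c.p34).ne'
  have g2 := (c.p79).ne'
  have g1 : v2 x1 x2 ≠ 0 := s3ne x1 x2
  simp only [v0, v3, v5, v10, v11, v12, v13, v14, v15, v27, v28, v29, v30, v31, v32, v33, v34, v35, v36, v44, v56, v62, v70, v72, v74, v78, v79, v80, v84] at hc g0 g2 ⊢
  push_cast at hc g0 g2 ⊢
  grind

theorem hS (c : Cx x1 x2) : v93 x1 x2 - v36 x1 x2 - v1 x1 x2 = v26 x1 x2 * v113 x1 x2 := by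
  have a3 := s93 c
  have a2 := s1 c
  have b := bS c
  try simp only [v1, v5, v10, v12, v26, v43, v88, v93, v95, v113] at a3
  try simp only [v1, v5, v10, v12, v26, v43, v88, v93, v95, v113] at a2
  try simp only [v1, v5, v10, v12, v26, v43, v88, v93, v95, v113] at b
  try simp only [v1, v5, v10, v12, v26, v43, v88, v93, v95, v113]
  (try push_cast at a3 a2 b ⊢)
  first | linear_combination a3 - a2 + b | grind

theorem bC (c : Cx x1 x2) : v110 x1 x2 * v12 x1 x2 - v114 x1 x2 * v36 x1 x2 = 0 := by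
  have hc := c.hc
  have h3 := s3q x1 x2
  have g0 := (c.p34).ne'
  simp only [v0, v3, v5, v10, v11, v12, v13, v14, v15, v27, v28, v29, v30, v31, v32, v33, v34, v35, v36, v110, v114] at hc g0 ⊢
  push_cast at hc g0 ⊢
  grind

theorem hC (c : Cx x1 x2) : v110 x1 x2 * v1 x1 x2 - v111 x1 x2 * v36 x1 x2 = v26 x1 x2 * v117 x1 x2 := by
  have a2 : v110 x1 x2 * v1 x1 x2 = v110 x1 x2 * (v12 x1 x2 + v26 x1 x2 * v43 x1 x2) := congrArg (fun z => v110 x1 x2 * z) (s1 c)
  have a3 : v36 x1 x2 * v111 x1 x2 = v36 x1 x2 * (v114 x1 x2 + v26 x1 x2 * v55 x1 x2) := congrArg (fun z => v36 x1 x2 * z) (s111 c)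
  have b := bC c
  try simp only [v0, v1, v2, v3, v5, v10, v12, v13, v15, v26, v43, v110, v111, v114, v115, v116, v117] at a2
  try simp only [v0, v1, v2, v3, v5, v10, v12, v13, v15, v26, v43, v110, v111, v114, v115, v116, v117] at a3
  try simp only [v0, v1, v2, v3, v5, v10, v12, v13, v15, v26, v43, v110, v111, v114, v115, v116, v117] at b
  simp only [v0, v1, v2, v3, v5, v10, v12, v13, v15, v26, v43, v110, v111, v114, v115, v116, v117]
  (try push_cast at a2 a3 b ⊢)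
  first | linear_combination a2 - a3 + b | grind

theorem hT (x1 x2 : ℝ) : v112 x1 x2 = v110 x1 x2 + v111 x1 x2 := by
  simp only [v0, v2, v3, v25, v110, v111, v112]
  push_cast
  ring

theorem hG (c : Cx x1 x2) : (-v112 x1 x2) * (-v1 x1 x2) - v111 x1 x2 * v93 x1 x2 = v26 x1 x2 * v119 x1 x2 := by
  have b := hC c
  have m0 : v111 x1 x2 * (v93 x1 x2 - v36 x1 x2 - v1 x1 x2) = v111 x1 x2 * (v26 x1 x2 * v113 x1 x2) := congrArg (fun z => v111 x1 x2 * z) (hS c)
  have m1 : v1 x1 x2 * v112 x1 x2 = v1 x1 x2 * (v110 x1 x2 + v111 x1 x2) := congrArg (fun z => v1 x1 x2 * z) (hT x1 x2)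
  try simp only [v0, v1, v2, v3, v5, v10, v12, v25, v26, v88, v93, v95, v110, v111, v112, v113, v115, v117, v118, v119] at b
  try simp only [v0, v1, v2, v3, v5, v10, v12, v25, v26, v88, v93, v95, v110, v111, v112, v113, v115, v117, v118, v119] at m0
  try simp only [v0, v1, v2, v3, v5, v10, v12, v25, v26, v88, v93, v95, v110, v111, v112, v113, v115, v117, v118, v119] at m1
  try simp only [v0, v1, v2, v3, v5, v10, v12, v25, v26, v88, v93, v95, v110, v111, v112, v113, v115, v117, v118, v119]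
  (try push_cast at b m0 m1 ⊢)
  first | linear_combination b - m0 + m1 | grind

theorem core (c : Cx x1 x2) (hW : 0 ≤ v26 x1 x2) (hWQ : 0 ≤ v26 x1 x2 * v124 x1 x2) (h1 : 0 ≤ v111 x1 x2) (h2 : 0 ≤ (-v112 x1 x2)) (h3 : v111 x1 x2 + (-v112 x1 x2) ≤ Pool.Agent.StripNear.h0) :
    0 ≤ starn_v (v100 x1 x2) (v111 x1 x2) ((-v112 x1 x2)) ((-v1 x1 x2)) (v93 x1 x2) (v36 x1 x2) := by
  have hD : (-v1 x1 x2) + v93 x1 x2 - v36 x1 x2 = v26 x1 x2 * v113 x1 x2 := by
    have b := hS c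
    linear_combination b
  have k := starn_ge hW h1 h2 h3 (hE c) hD (hG c)
  have f1 : (-v112 x1 x2) = v123 x1 x2 := by
    simp only [v0, v2, v3, v25, v111, v112, v123]
    try (push_cast; ring)
  refine le_trans hWQ (le_trans (le_of_eq ?_) k)
  rw [v124]
  rw [f1]

end Pool.Agent.Strip051.LB.ChA00V1_pp_123
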